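import Mathlib
import Pool.Agent.T2H73.Geh3

set_option autoImplicit false

/-!
# MP_edcda5_an, Q1: the explicit Gehring exponent

For every `d ≥ 1` and `1 < p < ∞` there is `C = C(d,p) > 0` such that for every weight
`w ∈ RH_p` on `ℝ^d`, every cube `Q` and every `0 < ε ≤ C [w]_{RH_p}^{-p}`,
`⟨w^{p+ε}⟩_Q ≤ 2 [w]_{RH_p}^{p+ε} ⟨w⟩_Q^{p+ε}`.  This is an affirmative answer to Q1.

All averages are Lebesgue (`ℝ≥0∞`-valued) averages, so the conclusion contains the
finiteness of `⟨w^{p+ε}⟩_Q`.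
-/

open MeasureTheory Set Filter Topology
open scoped ENNReal

namespace Pool.Agent.Results.MP_edcda5_an.GehringExponent

/-- The (closed) axis-parallel cube with lower corner `c` and side length `s`. -/
def cube {d : ℕ} (c : Fin d → ℝ) (s : ℝ) : Set (Fin d → ℝ) := Set.Icc c (fun i => c i + s)

/-- The reverse Hölder constant
`[w]_{RH_p} = sup_Q ⟨w^p⟩_Q^{1/p} ⟨w⟩_Q^{-1}`, the supremum over all cubes `Q` of positive
side length, as an element of `[0,∞]`. -/
noncomputable def RH {d : ℕ} (p : ℝ) (w : (Fin d → ℝ) → ℝ) : ℝ≥0∞ :=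
  ⨆ (c : Fin d → ℝ) (s : ℝ) (_ : 0 < s),
    (⨍⁻ x in cube c s, ENNReal.ofReal (w x ^ p) ∂volume) ^ (1 / p) /
      (⨍⁻ x in cube c s, ENNReal.ofReal (w x) ∂volume)

open Pool.Agent.T2H73.Geh in
/-- For everywhere nonnegative functions. -/
lemma aux {d : ℕ} {p : ℝ} (hp : 1 < p) {w : (Fin d → ℝ) → ℝ}
    (hloc : LocallyIntegrable w volume) (hw : ∀ x, 0 ≤ w x) (hpos : ∀ᵐ x, 0 < w x)
    (hRH : RH p w ≠ ⊤) (c : Fin d → ℝ) {s : ℝ} (hs : 0 < s) {ε : ℝ} (hε : 0 < ε)
    (hε2 : ε ≤ (p / 2 / ((2 ^ d) ^ p * (p / (p - 1)) ^ p)) * (RH p w).toReal ^ (-p)) :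
    ⨍⁻ x in cube c s, ENNReal.ofReal (w x ^ (p + ε)) ∂volume ≤
      2 * RH p w ^ (p + ε) * (⨍⁻ x in cube c s, ENNReal.ofReal (w x) ∂volume) ^ (p + ε) := by
  have hp0 : 0 < p := by linarith
  have hI : ∀ c s, 0 < s → IntegrableOn w (hc c s) := fun c s _ =>
    (hloc.integrableOn_isCompact (k := Pool.Agent.T2H73.Geh.cube c s) isCompact_Icc).mono_set
      (hc_subset_cube c s)
  -- laverage in terms of hc
  have hvol : ∀ (c : Fin d → ℝ) (s : ℝ), 0 < s → volume (cube c s) = ENNReal.ofReal (s ^ d) := by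
    intro c s hs
    have : volume (cube c s) = volume (hc c s) := (measure_congr (cube_ae c s)).symm
    rw [this, volume_hc, ENNReal.ofReal_pow hs.le]
  have hlav : ∀ (f : (Fin d → ℝ) → ℝ≥0∞) (c : Fin d → ℝ) (s : ℝ), 0 < s →
      ⨍⁻ x in cube c s, f x ∂volume = (∫⁻ x in hc c s, f x) / ENNReal.ofReal (s ^ d) := by
    intro f c s hs
    rw [setLAverage_eq, hvol c s hs]
    congr 1
    exact (setLIntegral_congr (cube_ae c s)).symm
  have hlavw : ∀ (f : (Fin d → ℝ) → ℝ) (c : Fin d → ℝ) (s : ℝ), 0 < s → (∀ x, 0 ≤ f x) →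
      IntegrableOn f (hc c s) →
      ⨍⁻ x in cube c s, ENNReal.ofReal (f x) ∂volume = ENNReal.ofReal (av f c s) := by
    intro f c s hs hf hfI
    rw [hlav _ c s hs, ← ofReal_integral_eq_lintegral_ofReal hfI (Eventually.of_forall hf),
      ← ENNReal.ofReal_div_of_pos (by positivity), av]
  have hmeas : AEStronglyMeasurable w volume := hloc.aestronglyMeasurable
  have havpos : ∀ (c : Fin d → ℝ) (s : ℝ), 0 < s → 0 < av w c s := by
    intro c s hs
    refine div_pos ?_ (by positivity)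
    rw [setIntegral_pos_iff_support_of_nonneg_ae (Eventually.of_forall hw) (hI c s hs)]
    have h1 : (Function.support w ∩ hc c s : Set _) =ᵐ[volume] hc c s := by
      filter_upwards [hpos] with x hx
      have : (x ∈ (Function.support w ∩ hc c s)) = (x ∈ hc c s) := by
        simp only [mem_inter_iff, Function.mem_support, eq_iff_iff]
        exact ⟨fun h => h.2, fun h => ⟨hx.ne', h⟩⟩
      exact this
    rw [measure_congr h1, volume_hc]
    exact pos_iff_ne_zero.mpr (pow_ne_zero _ (by simpa using hs))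
  -- bound from RH
  have hb : ∀ (c : Fin d → ℝ) (s : ℝ), 0 < s →
      (⨍⁻ x in cube c s, ENNReal.ofReal (w x ^ p) ∂volume) ≤
        RH p w ^ p * ENNReal.ofReal (av w c s) ^ p := by
    intro c s hs
    have h1 : (⨍⁻ x in cube c s, ENNReal.ofReal (w x ^ p) ∂volume) ^ (1 / p) /
        (⨍⁻ x in cube c s, ENNReal.ofReal (w x) ∂volume) ≤ RH p w :=
      le_iSup_of_le c (le_iSup_of_le s (le_iSup_of_le hs le_rfl))
    rw [hlavw w c s hs hw (hI c s hs)] at h1
    have h2 : ENNReal.ofReal (av w c s) ≠ 0 := by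
      simpa using havpos c s hs
    rw [ENNReal.div_le_iff h2 ENNReal.ofReal_ne_top] at h1
    have h3 := ENNReal.rpow_le_rpow h1 hp0.le
    rw [← ENNReal.rpow_mul, one_div, inv_mul_cancel₀ hp0.ne', ENNReal.rpow_one,
      ENNReal.mul_rpow_of_nonneg _ _ hp0.le] at h3
    exact h3
  have hIp : ∀ c s, 0 < s → IntegrableOn (fun x => w x ^ p) (hc c s) := by
    intro c s hs
    refine ⟨(hmeas.aemeasurable.pow_const p).aestronglyMeasurable.restrict, ?_⟩
    rw [hasFiniteIntegral_iff_ofReal (Eventually.of_forall fun x => Real.rpow_nonneg (hw x) p)]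
    have h1 := hb c s hs
    rw [hlav _ c s hs] at h1
    have h2 : ENNReal.ofReal (s ^ d) ≠ 0 := by
      have : 0 < s ^ d := by positivity
      simpa using this
    rw [ENNReal.div_le_iff h2 ENNReal.ofReal_ne_top] at h1
    refine lt_of_le_of_lt h1 (ENNReal.mul_lt_top (ENNReal.mul_lt_top ?_ ?_)
      ENNReal.ofReal_lt_top)
    · exact ENNReal.rpow_lt_top_of_nonneg hp0.le hRH
    · exact ENNReal.rpow_lt_top_of_nonneg hp0.le ENNReal.ofReal_ne_top
  set R := (RH p w).toReal with hR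
  have hRR : RH p w = ENNReal.ofReal R := (ENNReal.ofReal_toReal hRH).symm
  have hR0 : 0 ≤ R := ENNReal.toReal_nonneg
  have hbR : ∀ c s, 0 < s → av (fun x => w x ^ p) c s ≤ R ^ p * av w c s ^ p := by
    intro c s hs
    have h1 := hb c s hs
    rw [hlavw (fun x => w x ^ p) c s hs (fun x => Real.rpow_nonneg (hw x) p) (hIp c s hs), hRR,
      ENNReal.ofReal_rpow_of_nonneg hR0 hp0.le,
      ENNReal.ofReal_rpow_of_nonneg (havpos c s hs).le hp0.le,
      ← ENNReal.ofReal_mul (Real.rpow_nonneg hR0 _)] at h1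
    have h2 : 0 ≤ R ^ p * av w c s ^ p :=
      mul_nonneg (Real.rpow_nonneg hR0 _) (Real.rpow_nonneg (havpos c s hs).le _)
    exact (ENNReal.ofReal_le_ofReal_iff h2).1 h1
  -- R ≥ 1
  have hR1 : 1 ≤ R := by
    have ha := havpos c s hs
    obtain ⟨a, haa⟩ : ∃ a, a = av w c s := ⟨_, rfl⟩
    rw [← haa] at ha
    have h1 : a ^ p ≤ av (fun x => w x ^ p) c s := by
      have h2 : ∫ x in hc c s, (1 * (w x * a ^ (p - 1))) ≤
          ∫ x in hc c s, (1 / p * w x ^ p + (p - 1) / p * a ^ p) := by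
        refine setIntegral_mono_on (((hI c s hs).mul_const _).const_mul 1)
          (((hIp c s hs).const_mul _).add
            (integrableOn_const (hs := (volume_hc_lt_top c s).ne)))
          (measurableSet_hc c s) fun x _ => ?_
        have := ineq3 (ε := 0) (C := 1) hp ha (hw x) zero_le_one
        simpa using this
      rw [integral_add ((hIp c s hs).const_mul _)
        (integrableOn_const (hs := (volume_hc_lt_top c s).ne)), integral_const_mul,
        integral_const_mul, integral_mul_const, setIntegral_const, measureReal_hc c hs.le,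
        smul_eq_mul] at h2
      have hsd : 0 < s ^ d := by positivity
      have e1 : ∫ x in hc c s, w x = a * s ^ d := by rw [haa, av]; field_simp
      have e2 : ∫ x in hc c s, w x ^ p = av (fun x => w x ^ p) c s * s ^ d := by
        rw [av]; field_simp
      have e3 : a * a ^ (p - 1) = a ^ p := by
        rw [← Real.rpow_one_add' ha.le (by linarith)]; congr 1; ring
      rw [e1, e2] at h2
      have e4 : 1 * (a * s ^ d * a ^ (p - 1)) = a ^ p * s ^ d := by rw [← e3]; ring
      rw [e4] at h2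
      have h3 : a ^ p * s ^ d ≤ (1 / p * av (fun x => w x ^ p) c s + (p - 1) / p * a ^ p) * s ^ d := by
        nlinarith
      have h4 := le_of_mul_le_mul_right h3 hsd
      have h5 : a ^ p = 1 / p * a ^ p + (p - 1) / p * a ^ p := by field_simp; ring
      have h6 : 1 / p * a ^ p ≤ 1 / p * av (fun x => w x ^ p) c s := by linarith
      exact le_of_mul_le_mul_left h6 (by positivity)
    have h2 := h1.trans (hbR c s hs)
    rw [← haa] at h2
    have h3 : 0 < a ^ p := Real.rpow_pos_of_pos ha _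
    have h4 : 1 ≤ R ^ p := by
      by_contra hcon
      push Not at hcon
      nlinarith
    by_contra hcon
    push Not at hcon
    exact absurd h4 (not_le.2 (Real.rpow_lt_one hR0 hcon hp0))
  have hRp : 0 < R ^ p := Real.rpow_pos_of_pos (by linarith) _
  have hsmall : ε * (R ^ p * (2 ^ d) ^ p * (p / (p - 1)) ^ p) ≤ p / 2 := by
    have hp1 : 0 < p - 1 := by linarith
    have hD : 0 < ((2 : ℝ) ^ d) ^ p * (p / (p - 1)) ^ p := by positivity
    rw [Real.rpow_neg hR0] at hε2
    have h1 := mul_le_mul_of_nonneg_right hε2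
      (show 0 ≤ R ^ p * (2 ^ d) ^ p * (p / (p - 1)) ^ p by positivity)
    refine h1.trans (le_of_eq ?_)
    field_simp
  have hmain := limit_bound hw hloc hI hp hε hRp hIp hbR hsmall hs (havpos c s hs)
  rw [hlav _ c s hs, hlavw w c s hs hw (hI c s hs)]
  have ha := havpos c s hs
  have hsd : 0 < s ^ d := by positivity
  rw [ENNReal.div_le_iff (by simpa using hsd) ENNReal.ofReal_ne_top]
  refine hmain.trans ?_
  have h2 : (2 : ℝ≥0∞) = ENNReal.ofReal 2 := by simp
  rw [hRR, ENNReal.ofReal_rpow_of_nonneg hR0 (by linarith),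
    ENNReal.ofReal_rpow_of_nonneg ha.le (by linarith), h2,
    ← ENNReal.ofReal_mul (by norm_num), ← ENNReal.ofReal_mul (by positivity),
    ← ENNReal.ofReal_mul (by positivity)]
  refine ENNReal.ofReal_le_ofReal ?_
  have h3 : R ^ p ≤ R ^ (p + ε) := Real.rpow_le_rpow_of_exponent_le hR1 (by linarith)
  have h4 : 0 ≤ av w c s ^ (p + ε) * s ^ d := by positivity
  nlinarith [mul_le_mul_of_nonneg_right h3 h4]

/-- **Q1 of MP_edcda5_an (yes).** For all `d ≥ 1`, `1 < p < ∞` there is `C > 0` such that for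
every weight `w` on `ℝ^d` with `[w]_{RH_p} < ∞`, every cube `Q` and every
`0 < ε ≤ C [w]_{RH_p}^{-p}` one has
`⟨w^{p+ε}⟩_Q ≤ 2 [w]_{RH_p}^{p+ε} ⟨w⟩_Q^{p+ε}`. -/
theorem result (d : ℕ) (_hd : 1 ≤ d) (p : ℝ) (hp : 1 < p) :
    ∃ C : ℝ, 0 < C ∧ ∀ w : (Fin d → ℝ) → ℝ, LocallyIntegrable w volume → (∀ᵐ x, 0 < w x) →
      RH p w ≠ ⊤ → ∀ (c : Fin d → ℝ) (s : ℝ), 0 < s → ∀ ε : ℝ, 0 < ε →
        ε ≤ C * (RH p w).toReal ^ (-p) →
        ⨍⁻ x in cube c s, ENNReal.ofReal (w x ^ (p + ε)) ∂volume ≤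
          2 * RH p w ^ (p + ε) * (⨍⁻ x in cube c s, ENNReal.ofReal (w x) ∂volume) ^ (p + ε) := by
  have hp0 : 0 < p := by linarith
  have hp1 : 0 < p - 1 := by linarith
  refine ⟨p / 2 / ((2 ^ d) ^ p * (p / (p - 1)) ^ p), by positivity, ?_⟩
  intro w hloc hpos hRH c s hs ε hε hε2
  -- replace `w` by its absolute value
  set v : (Fin d → ℝ) → ℝ := fun x => |w x| with hv
  have hvw : ∀ᵐ x, v x = w x := by
    filter_upwards [hpos] with x hx
    exact abs_of_pos hx
  have hvloc : LocallyIntegrable v volume := by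
    intro x
    obtain ⟨u, hu, h⟩ := hloc x
    exact ⟨u, hu, h.norm⟩
  have hav : ∀ (q : ℝ) (c : Fin d → ℝ) (s : ℝ),
      ⨍⁻ x in cube c s, ENNReal.ofReal (v x ^ q) ∂volume =
        ⨍⁻ x in cube c s, ENNReal.ofReal (w x ^ q) ∂volume := by
    intro q c s
    refine laverage_congr ?_
    filter_upwards [ae_restrict_of_ae hvw] with x hx
    rw [hx]
  have hav1 : ∀ (c : Fin d → ℝ) (s : ℝ),
      ⨍⁻ x in cube c s, ENNReal.ofReal (v x) ∂volume =
        ⨍⁻ x in cube c s, ENNReal.ofReal (w x) ∂volume := by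
    intro c s
    refine laverage_congr ?_
    filter_upwards [ae_restrict_of_ae hvw] with x hx
    rw [hx]
  have hRHv : RH p v = RH p w := by
    unfold RH
    simp only [hav, hav1]
  have hvpos : ∀ᵐ x, 0 < v x := by
    filter_upwards [hpos, hvw] with x hx hx2
    rw [hx2]; exact hx
  have := aux hp hvloc (fun x => abs_nonneg _) hvpos (by rw [hRHv]; exact hRH) c hs hε
    (by rw [hRHv]; exact hε2)
  rwa [hav, hav1, hRHv] at this

end Pool.Agent.Results.MP_edcda5_an.GehringExponent
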